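import Mathlib

/-!
Weyl monotonicity of the eigenvalues of Hermitian complex matrices, and trace functions.
-/

set_option autoImplicit false

open Matrix
open scoped ComplexOrder

namespace Pool.Agent.Lib.MatrixWeyl

variable {n : Type*} [Fintype n] [DecidableEq n]

/-- The quadratic form of a unitarily diagonalised matrix. -/
theorem quad_form_diag (U : Matrix n n ℂ) (d : n → ℝ) (x : n → ℂ) :
    (star x ⬝ᵥ ((U * diagonal (fun i => (d i : ℂ)) * star U) *ᵥ x)).re
      = ∑ i, d i * Complex.normSq ((star U *ᵥ x) i) := by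
  have h1 : star x ⬝ᵥ ((U * diagonal (fun i => (d i : ℂ)) * star U) *ᵥ x)
      = star (star U *ᵥ x) ⬝ᵥ (diagonal (fun i => (d i : ℂ)) *ᵥ (star U *ᵥ x)) := by
    rw [← mulVec_mulVec, ← mulVec_mulVec, dotProduct_mulVec, star_mulVec,
      star_eq_conjTranspose, conjTranspose_conjTranspose]
  rw [h1]
  simp only [dotProduct, mulVec_diagonal, Pi.star_apply, Complex.re_sum]
  refine Finset.sum_congr rfl fun i _ => ?_
  generalize (star U *ᵥ x) i = z
  simp [Complex.normSq_apply]
  ring

theorem herm_eq {P : Matrix n n ℂ} (hP : P.IsHermitian) :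
    P = (hP.eigenvectorUnitary : Matrix n n ℂ) * diagonal (fun i => (hP.eigenvalues i : ℂ))
      * star (hP.eigenvectorUnitary : Matrix n n ℂ) := by
  have := hP.spectral_theorem
  rw [Unitary.conjStarAlgAut_apply] at this
  exact this

theorem quad_form_herm {P : Matrix n n ℂ} (hP : P.IsHermitian) (x : n → ℂ) :
    (star x ⬝ᵥ (P *ᵥ x)).re
      = ∑ i, hP.eigenvalues i *
        Complex.normSq ((star (hP.eigenvectorUnitary : Matrix n n ℂ) *ᵥ x) i) := by
  conv_lhs => rw [herm_eq hP]
  exact quad_form_diag _ _ _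

theorem normSq_unitary (U : Matrix.unitaryGroup n ℂ) (x : n → ℂ) :
    ∑ i, Complex.normSq ((star (U : Matrix n n ℂ) *ᵥ x) i) = ∑ i, Complex.normSq (x i) := by
  have h := quad_form_diag (U : Matrix n n ℂ) (fun _ => 1) x
  have h2 := quad_form_diag (1 : Matrix n n ℂ) (fun _ => 1) x
  simp only [Complex.ofReal_one, diagonal_one, mul_one, one_mul, star_one, one_mulVec] at h h2
  have h3 : (U : Matrix n n ℂ) * star (U : Matrix n n ℂ) = 1 := U.2.2
  rw [h3, one_mulVec] at h
  rw [← h, ← h2]

/-- Counting form of Weyl monotonicity. -/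
theorem card_ge_le {P Q : Matrix n n ℂ} (hP : P.IsHermitian) (hQ : Q.IsHermitian)
    (h : (Q - P).PosSemidef) (t : ℝ) :
    (Finset.univ.filter fun i => t ≤ hP.eigenvalues i).card
      ≤ (Finset.univ.filter fun i => t ≤ hQ.eigenvalues i).card := by
  by_contra hlt
  push Not at hlt
  set U : Matrix n n ℂ := star (hP.eigenvectorUnitary : Matrix n n ℂ) with hU
  set W : Matrix n n ℂ := star (hQ.eigenvectorUnitary : Matrix n n ℂ) with hW
  let I := {i : n // ¬ t ≤ hP.eigenvalues i}
  let J := {i : n // t ≤ hQ.eigenvalues i}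
  let L : (n → ℂ) →ₗ[ℂ] ((I → ℂ) × (J → ℂ)) :=
    LinearMap.prod ((LinearMap.funLeft ℂ ℂ (Subtype.val : I → n)).comp U.mulVecLin)
      ((LinearMap.funLeft ℂ ℂ (Subtype.val : J → n)).comp W.mulVecLin)
  have hrk : Module.finrank ℂ ((I → ℂ) × (J → ℂ)) < Module.finrank ℂ (n → ℂ) := by
    rw [Module.finrank_prod, Module.finrank_fintype_fun_eq_card, Module.finrank_fintype_fun_eq_card,
      Module.finrank_fintype_fun_eq_card]
    have hI : Fintype.card I = (Finset.univ.filter fun i => ¬ t ≤ hP.eigenvalues i).card :=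
      Fintype.card_subtype _
    have hJ : Fintype.card J = (Finset.univ.filter fun i => t ≤ hQ.eigenvalues i).card :=
      Fintype.card_subtype _
    have := Finset.card_filter_add_card_filter_not (s := (Finset.univ : Finset n))
      (fun i => t ≤ hP.eigenvalues i)
    rw [Finset.card_univ] at this
    omega
  obtain ⟨x, hx, hx0⟩ := (Submodule.ne_bot_iff _).mp (L.ker_ne_bot_of_finrank_lt hrk)
  have hx' : L x = 0 := hx
  have hxI : ∀ i, ¬ t ≤ hP.eigenvalues i → (U *ᵥ x) i = 0 := fun i hi =>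
    congrFun (congrArg Prod.fst hx') ⟨i, hi⟩
  have hxJ : ∀ i, t ≤ hQ.eigenvalues i → (W *ᵥ x) i = 0 := fun i hi =>
    congrFun (congrArg Prod.snd hx') ⟨i, hi⟩
  have hpos : 0 < ∑ i, Complex.normSq (x i) := by
    obtain ⟨i, hi⟩ := Function.ne_iff.mp hx0
    exact Finset.sum_pos' (fun j _ => Complex.normSq_nonneg _)
      ⟨i, Finset.mem_univ _, Complex.normSq_pos.mpr hi⟩
  have h1 : t * ∑ i, Complex.normSq (x i) ≤ (star x ⬝ᵥ (P *ᵥ x)).re := by
    rw [quad_form_herm hP, ← normSq_unitary hP.eigenvectorUnitary x, Finset.mul_sum]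
    refine Finset.sum_le_sum fun i _ => ?_
    by_cases hi : t ≤ hP.eigenvalues i
    · exact mul_le_mul_of_nonneg_right hi (Complex.normSq_nonneg _)
    · have := hxI i hi
      rw [hU] at this
      simp [this]
  have h2 : (star x ⬝ᵥ (Q *ᵥ x)).re < t * ∑ i, Complex.normSq (x i) := by
    have hs := normSq_unitary hQ.eigenvectorUnitary x
    rw [quad_form_herm hQ, ← hs, Finset.mul_sum]
    rw [← hs] at hpos
    obtain ⟨j, -, hj⟩ : ∃ j ∈ Finset.univ, 0 < Complex.normSq ((W *ᵥ x) j) := by
      by_contra hc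
      push Not at hc
      have : ∑ i, Complex.normSq ((W *ᵥ x) i) ≤ 0 := Finset.sum_nonpos hc
      exact absurd hpos (not_lt.mpr this)
    refine Finset.sum_lt_sum (fun i _ => ?_) ⟨j, Finset.mem_univ _, ?_⟩
    · by_cases hi : t ≤ hQ.eigenvalues i
      · have := hxJ i hi
        rw [hW] at this
        simp [this]
      · exact mul_le_mul_of_nonneg_right (not_le.mp hi).le (Complex.normSq_nonneg _)
    · by_cases hi : t ≤ hQ.eigenvalues j
      · have := hxJ j hi
        rw [this] at hj
        simp at hj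
      · exact mul_lt_mul_of_pos_right (not_le.mp hi) hj
  have h3 : 0 ≤ (star x ⬝ᵥ ((Q - P) *ᵥ x)).re := h.re_dotProduct_nonneg x
  rw [sub_mulVec, dotProduct_sub, Complex.sub_re] at h3
  linarith

/-- Two antitone sequences whose counting functions compare are pointwise comparable. -/
theorem le_of_card_le {N : ℕ} {p q : Fin N → ℝ} (hp : Antitone p) (hq : Antitone q)
    (h : ∀ t, (Finset.univ.filter fun i => t ≤ p i).card
      ≤ (Finset.univ.filter fun i => t ≤ q i).card) (j : Fin N) : p j ≤ q j := by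
  by_contra hlt
  push Not at hlt
  have h1 : Finset.Iic j ⊆ Finset.univ.filter fun i => p j ≤ p i := fun i hi => by
    simp only [Finset.mem_filter, Finset.mem_univ, true_and]
    exact hp (Finset.mem_Iic.mp hi)
  have h2 : (Finset.univ.filter fun i => p j ≤ q i) ⊆ Finset.Iio j := fun i hi => by
    simp only [Finset.mem_filter, Finset.mem_univ, true_and] at hi
    rw [Finset.mem_Iio]
    by_contra hc
    have := hq (not_lt.mp hc)
    linarith
  have h3 := Finset.card_le_card h1
  have h4 := Finset.card_le_card h2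
  have h5 := h (p j)
  rw [Fin.card_Iic] at h3
  rw [Fin.card_Iio] at h4
  omega

/-- Weyl monotonicity: if `Q - P` is positive semidefinite then each ordered eigenvalue of `P`
is at most the corresponding one of `Q`. -/
theorem eigenvalues_mono {P Q : Matrix n n ℂ} (hP : P.IsHermitian) (hQ : Q.IsHermitian)
    (h : (Q - P).PosSemidef) (i : n) : hP.eigenvalues i ≤ hQ.eigenvalues i := by
  unfold IsHermitian.eigenvalues
  refine le_of_card_le hP.eigenvalues₀_antitone hQ.eigenvalues₀_antitone (fun t => ?_) _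
  have key : ∀ {R : Matrix n n ℂ} (hR : R.IsHermitian),
      (Finset.univ.filter fun i => t ≤ hR.eigenvalues₀ i).card
        = (Finset.univ.filter fun i => t ≤ hR.eigenvalues i).card := by
    intro R hR
    refine Finset.card_bij' (fun i _ => (Fintype.equivOfCardEq (Fintype.card_fin _)) i)
      (fun i _ => (Fintype.equivOfCardEq (Fintype.card_fin _)).symm i) ?_ ?_ ?_ ?_
    · intro a ha
      rw [Finset.mem_filter] at ha ⊢
      refine ⟨Finset.mem_univ _, ?_⟩
      unfold IsHermitian.eigenvalues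
      rw [Equiv.symm_apply_apply]
      exact ha.2
    · intro a ha
      rw [Finset.mem_filter] at ha ⊢
      exact ⟨Finset.mem_univ _, ha.2⟩
    · intro a _
      simp
    · intro a _
      simp
  rw [key hP, key hQ]
  exact card_ge_le hP hQ h t

/-- The real trace of `f` applied to a matrix through the functional calculus. -/
noncomputable def trf (f : ℝ → ℝ) (A : Matrix n n ℂ) : ℝ := (trace (cfc f A)).re

theorem trace_cfc {A : Matrix n n ℂ} (hA : A.IsHermitian) (f : ℝ → ℝ) :
    trace (cfc f A) = ∑ i, (f (hA.eigenvalues i) : ℂ) := by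
  rw [hA.cfc_eq, IsHermitian.cfc, Unitary.conjStarAlgAut_apply, trace_mul_cycle]
  have h3 : star (hA.eigenvectorUnitary : Matrix n n ℂ) * (hA.eigenvectorUnitary : Matrix n n ℂ)
      = 1 := hA.eigenvectorUnitary.2.1
  rw [h3, one_mul, trace_diagonal]
  rfl

theorem trf_eq {A : Matrix n n ℂ} (hA : A.IsHermitian) (f : ℝ → ℝ) :
    trf f A = ∑ i, f (hA.eigenvalues i) := by
  unfold trf
  rw [trace_cfc hA, Complex.re_sum]
  simp

theorem trf_mono {P Q : Matrix n n ℂ} (hP : P.IsHermitian) (hQ : Q.IsHermitian)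
    (h : (Q - P).PosSemidef) {f : ℝ → ℝ} (hf : Monotone f) : trf f P ≤ trf f Q := by
  rw [trf_eq hP, trf_eq hQ]
  exact Finset.sum_le_sum fun i _ => hf (eigenvalues_mono hP hQ h i)

theorem trf_congr_charpoly {P Q : Matrix n n ℂ} (hP : P.IsHermitian) (hQ : Q.IsHermitian)
    (h : P.charpoly = Q.charpoly) (f : ℝ → ℝ) : trf f P = trf f Q := by
  rw [trf_eq hP, trf_eq hQ, (hP.eigenvalues_eq_eigenvalues_iff hQ).mpr h]

theorem contOn_spec (A : Matrix n n ℂ) (f : ℝ → ℝ) : ContinuousOn f (spectrum ℝ A) :=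
  (finite_real_spectrum (A := A)).continuousOn f

theorem cfc_cfc {A : Matrix n n ℂ} (hA : A.IsHermitian) (f g : ℝ → ℝ) :
    cfc f (cfc g A) = cfc (fun x => f (g x)) A := by
  have hA' : IsSelfAdjoint A := hA
  exact (cfc_comp' f g A (((finite_real_spectrum (A := A)).image g).continuousOn f)
    (contOn_spec A g) hA').symm

theorem trf_cfc {A : Matrix n n ℂ} (hA : A.IsHermitian) (f g : ℝ → ℝ) :
    trf f (cfc g A) = trf (fun x => f (g x)) A := by
  unfold trf
  rw [cfc_cfc hA]

theorem cfc_herm (A : Matrix n n ℂ) (f : ℝ → ℝ) : (cfc f A).IsHermitian :=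
  (cfc_predicate f A : IsSelfAdjoint (cfc f A))

theorem cfc_mul' (A : Matrix n n ℂ) (f g : ℝ → ℝ) :
    cfc f A * cfc g A = cfc (fun x => f x * g x) A :=
  (cfc_mul f g A (contOn_spec A f) (contOn_spec A g)).symm

theorem cfc_congr_eig {A : Matrix n n ℂ} (hA : A.IsHermitian) {f g : ℝ → ℝ}
    (h : ∀ i, f (hA.eigenvalues i) = g (hA.eigenvalues i)) : cfc f A = cfc g A := by
  refine cfc_congr fun x hx => ?_
  rw [hA.spectrum_real_eq_range_eigenvalues] at hx
  obtain ⟨i, rfl⟩ := hx
  exact h i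

theorem cfc_posSemidef {A : Matrix n n ℂ} (hA : A.IsHermitian) {f : ℝ → ℝ}
    (h : ∀ i, 0 ≤ f (hA.eigenvalues i)) : (cfc f A).PosSemidef := by
  rw [hA.cfc_eq, IsHermitian.cfc, Unitary.conjStarAlgAut_apply]
  have : (diagonal (RCLike.ofReal ∘ f ∘ hA.eigenvalues) : Matrix n n ℂ).PosSemidef := by
    refine PosSemidef.diagonal fun i => ?_
    simpa using h i
  exact this.mul_mul_conjTranspose_same _

theorem cfc_posDef {A : Matrix n n ℂ} (hA : A.IsHermitian) {f : ℝ → ℝ}
    (h : ∀ i, 0 < f (hA.eigenvalues i)) : (cfc f A).PosDef := by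
  rw [(cfc_posSemidef hA fun i => (h i).le).posDef_iff_isUnit]
  have : cfc f A * cfc (fun x => (f x)⁻¹) A = 1 := by
    rw [cfc_mul', cfc_congr_eig hA (g := fun _ => 1) fun i => mul_inv_cancel₀ (h i).ne']
    exact cfc_const_one ℝ A hA
  exact IsUnit.of_mul_eq_one _ this

end Pool.Agent.Lib.MatrixWeyl
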